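import Mathlib
import Pool.Agent.Lib.helper29.Hall3

set_option autoImplicit false

open Set MeasureTheory ProbabilityTheory EuclideanGeometry Real
open scoped ENNReal

namespace Pool.Agent.Results.MP_92974c_pr.Square

/-- The probability that the largest angle of the triangle formed by three independent uniform
points of `S` is at most `φ`. -/
noncomputable def F {n : ℕ} (S : Set (EuclideanSpace ℝ (Fin n))) (φ : ℝ) : ℝ≥0∞ :=
  ((cond volume S).prod ((cond volume S).prod (cond volume S)))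
    {p | max (∠ p.2.1 p.1 p.2.2) (max (∠ p.1 p.2.1 p.2.2) (∠ p.1 p.2.2 p.2.1)) ≤ φ}

open Pool.Agent.Lib.H29.Hall in
lemma transfer {S : Set ℂ} (hS : MeasurableSet S) (φ : ℝ) :
    F (Complex.orthonormalBasisOneI.repr.symm ⁻¹' S) φ =
      (volume S)⁻¹ * ((volume S)⁻¹ * ((volume S)⁻¹ * ∫⁻ w in {w | ang 0 1 w ≤ φ}, c S w)) := by
  set g := Complex.orthonormalBasisOneI.repr.symm
  have hg : MeasurePreserving g := g.measurePreserving
  have hE : MeasurableSet {p : ℂ × ℂ × ℂ | ang p.1 p.2.1 p.2.2 ≤ φ} :=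
    measurableSet_le (meas_ang (by fun_prop) (by fun_prop) (by fun_prop)) measurable_const
  have h3 := hg.prod (hg.prod hg)
  have e : {p : EuclideanSpace ℝ (Fin 2) × EuclideanSpace ℝ (Fin 2) × EuclideanSpace ℝ (Fin 2) |
      max (∠ p.2.1 p.1 p.2.2) (max (∠ p.1 p.2.1 p.2.2) (∠ p.1 p.2.2 p.2.1)) ≤ φ} =
      Prod.map g (Prod.map g g) ⁻¹' {p : ℂ × ℂ × ℂ | ang p.1 p.2.1 p.2.2 ≤ φ} := by
    have key : ∀ x y z, ∠ (g x) (g y) (g z) = ∠ x y z := fun x y z => by
      unfold EuclideanGeometry.angle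
      simp only [vsub_eq_sub, ← map_sub]
      exact g.toLinearIsometry.angle_map _ _
    ext p
    simp only [mem_ofPred_eq, mem_preimage, ang, Prod.map_fst, Prod.map_snd, key]
  rw [F, ProbabilityTheory.cond, Measure.prod_smul_left, Measure.prod_smul_left, Measure.prod_smul_right,
    Measure.prod_smul_right, Measure.prod_smul_right, Measure.prod_restrict, Measure.prod_restrict,
    hg.measure_preimage hS.nullMeasurableSet, e]
  simp only [Measure.smul_apply, smul_eq_mul]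
  rw [Measure.restrict_apply (h3.measurable hE), ← count hS, Measure.volume_eq_prod,
    Measure.volume_eq_prod, ← h3.measure_preimage (hE.inter (hS.prod (hS.prod hS))).nullMeasurableSet]
  rfl

open Pool.Agent.Lib.H29.Hall in
theorem result : ∃ S : Set (EuclideanSpace ℝ (Fin 2)), Bornology.IsBounded S ∧ Convex ℝ S ∧
    (interior S).Nonempty ∧ ∃ φ : ℝ, F (Metric.closedBall (0 : EuclideanSpace ℝ (Fin 2)) 1) φ < F S φ := by
  set g := Complex.orthonormalBasisOneI.repr.symm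
  let Q := Sq (-(2 / 10 ^ 4)) (1 + 2 / 10 ^ 4)
  refine ⟨g ⁻¹' Q, ?_, ?_, ?_, arccos (1 / 2 - 1 / 10 ^ 7), ?_⟩
  · refine (Metric.isBounded_closedBall (x := 0) (r := 4)).subset fun x hx => ?_
    rw [mem_closedBall_zero_iff, ← g.norm_map]
    obtain ⟨⟨a, b⟩, d, e⟩ := hx
    refine (Complex.norm_le_abs_re_add_abs_im _).trans ?_
    linarith [abs_le.2 (⟨by linarith, by linarith⟩ : -2 ≤ (g x).re ∧ (g x).re ≤ 2),
      abs_le.2 (⟨by linarith, by linarith⟩ : -2 ≤ (g x).im ∧ (g x).im ≤ 2)]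
  · exact (((convex_Icc _ _).linear_preimage Complex.reLm).inter
      ((convex_Icc _ _).linear_preimage Complex.imLm)).linear_preimage g.toLinearEquiv.toLinearMap
  · refine ⟨0, mem_interior_iff_mem_nhds.2 (Filter.mem_of_superset
      (Metric.closedBall_mem_nhds 0 (ε := 1 / 10 ^ 4) (by norm_num)) fun x hx => ?_)⟩
    rw [mem_closedBall_zero_iff, ← g.norm_map] at hx
    have h1 := abs_le.1 ((Complex.abs_re_le_norm _).trans hx)
    have h2 := abs_le.1 ((Complex.abs_im_le_norm _).trans hx)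
    exact ⟨⟨by linarith [h1.1], by linarith [h1.2]⟩, by linarith [h2.1], by linarith [h2.2]⟩
  have eD : Metric.closedBall (0 : EuclideanSpace ℝ (Fin 2)) 1 = g ⁻¹' Metric.closedBall 0 1 := by
    ext x
    simp only [mem_preimage, mem_closedBall_zero_iff, g.norm_map]
  rw [eD, transfer measurableSet_closedBall, transfer (meas_Sq _ _)]
  set W := {w : ℂ | ang 0 1 w ≤ arccos (1 / 2 - 1 / 10 ^ 7)}
  have hW : MeasurableSet W :=
    measurableSet_le (meas_ang (by fun_prop) (by fun_prop) (by fun_prop)) measurable_const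
  have close : ∀ (p : ℂ × ℂ) (w w' : ℂ), ‖p.2‖ ≤ 2 → ‖w - w'‖ ≤ 1 / 10 ^ 4 →
      ‖p.1 + p.2 * w - (p.1 + p.2 * w')‖ ≤ 2 / 10 ^ 4 := fun p w w' h1 h2 => by
    rw [show p.1 + p.2 * w - (p.1 + p.2 * w') = p.2 * (w - w') by ring, norm_mul]
    exact (mul_le_mul h1 h2 (norm_nonneg _) (by norm_num)).trans (by norm_num)
  have hD : ∀ w w' : ℂ, ‖w - w'‖ ≤ 1 / 10 ^ 4 →
      c (Metric.closedBall 0 1) w ≤ c (Metric.closedBall 0 (1 + 2 / 10 ^ 4)) w' := by
    refine fun w w' h => c_mono fun p hp => ?_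
    obtain ⟨a, b, d⟩ := hp
    simp only [T, mem_ofPred_eq, mem_closedBall_zero_iff] at a b d ⊢
    have h2 : ‖p.2‖ ≤ 2 := by
      have := norm_sub_le (p.1 + p.2) p.1
      rw [add_sub_cancel_left] at this
      linarith
    have := close p w w' h2 h
    have h3 := norm_sub_norm_le (p.1 + p.2 * w') (p.1 + p.2 * w)
    rw [norm_sub_rev] at h3
    exact ⟨by linarith, by linarith, by linarith⟩
  have hQ : ∀ w w' : ℂ, ‖w - w'‖ ≤ 1 / 10 ^ 4 → c (Sq 0 1) w' ≤ c Q w := by
    refine fun w w' h => c_mono fun p hp => ?_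
    obtain ⟨⟨⟨a1, a2⟩, a3, a4⟩, ⟨⟨b1, b2⟩, b3, b4⟩, ⟨d1, d2⟩, d3, d4⟩ := hp
    have h2 : ‖p.2‖ ≤ 2 := by
      rw [Complex.add_re] at b1 b2
      rw [Complex.add_im] at b3 b4
      refine (Complex.norm_le_abs_re_add_abs_im _).trans ?_
      linarith [abs_le.2 (⟨by linarith, by linarith⟩ : -1 ≤ p.2.re ∧ p.2.re ≤ 1),
        abs_le.2 (⟨by linarith, by linarith⟩ : -1 ≤ p.2.im ∧ p.2.im ≤ 1)]
    have := close p w w' h2 h
    have h1 := abs_le.1 ((Complex.abs_re_le_norm _).trans this)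
    have h3 := abs_le.1 ((Complex.abs_im_le_norm _).trans this)
    rw [Complex.sub_re] at h1
    rw [Complex.sub_im] at h3
    exact ⟨⟨⟨by linarith, by linarith⟩, by linarith, by linarith⟩,
      ⟨⟨by linarith, by linarith⟩, by linarith, by linarith⟩,
      ⟨by linarith [h1.1], by linarith [h1.2]⟩, by linarith [h3.1], by linarith [h3.2]⟩
  have u1 : ∫⁻ w in W, c (Metric.closedBall 0 1) w ≤
      ENNReal.ofReal (π * (1 + 2 / 10 ^ 4) ^ 6 * (π - 9 * √3 / 8)) * volume W := by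
    rw [← setLIntegral_const]
    refine setLIntegral_mono' hW fun w hw => le_trans ?_ (disk (by norm_num))
    rcases near hw with h | h
    · exact hD _ _ h
    · exact (hD _ _ h).trans (c_conj measurableSet_closedBall).le
  have u2 : ENNReal.ofReal (1219 / 10000) * volume W ≤ ∫⁻ w in W, c Q w := by
    rw [← setLIntegral_const]
    refine setLIntegral_mono' hW fun w hw => le_trans square ?_
    rcases near hw with h | h
    · exact hQ _ _ h
    · exact (c_conj (meas_Sq 0 1)).ge.trans (hQ _ _ h)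
  have v1 : volume (Metric.closedBall (0 : ℂ) 1) = ENNReal.ofReal π := by
    rw [Complex.volume_closedBall, ← NNReal.coe_real_pi, ENNReal.ofReal_coe_nnreal]
    simp
  have v2 : volume (Sq (-(2 / 10 ^ 4)) (1 + 2 / 10 ^ 4)) = ENNReal.ofReal ((1 + 4 / 10 ^ 4) ^ 2) := by
    rw [Sq, vol_prod _ _ measurableSet_Icc measurableSet_Icc, Real.volume_Icc,
      ← ENNReal.ofReal_mul (by norm_num)]
    norm_num
  have hπ := Real.pi_pos
  rw [v1, v2, ← ENNReal.ofReal_inv_of_pos hπ, ← ENNReal.ofReal_inv_of_pos (by norm_num)]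
  refine lt_of_le_of_lt (mul_le_mul_right (mul_le_mul_right (mul_le_mul_right u1 _) _) _)
    (lt_of_lt_of_le ?_ (mul_le_mul_right (mul_le_mul_right (mul_le_mul_right u2 _) _) _))
  simp only [← mul_assoc]
  refine ENNReal.mul_lt_mul_left W_pos.ne' W_fin.ne ?_
  rw [← ENNReal.ofReal_mul (by positivity), ← ENNReal.ofReal_mul (by positivity),
    ← ENNReal.ofReal_mul (by positivity), ← ENNReal.ofReal_mul (by positivity),
    ← ENNReal.ofReal_mul (by positivity), ← ENNReal.ofReal_mul (by positivity),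
    ENNReal.ofReal_lt_ofReal_iff (by norm_num)]
  obtain ⟨b1, -⟩ := s3_bd
  have p1 := Real.pi_gt_d4
  have p2 := Real.pi_lt_d4
  have p3 := mul_le_mul p1.le p1.le (by norm_num) hπ.le
  rw [show π⁻¹ * π⁻¹ * π⁻¹ * (π * (1 + 2 / 10 ^ 4) ^ 6 * (π - 9 * √3 / 8)) =
    (1 + 2 / 10 ^ 4) ^ 6 * (π - 9 * √3 / 8) / (π * π) by field_simp, div_lt_iff₀ (by positivity)]
  norm_num at p3 ⊢
  linarith

end Pool.Agent.Results.MP_92974c_pr.Square
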